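import Pool.Agent.Helper46.C2.St

set_option autoImplicit false

namespace Pool.Agent.Helper94.C2

open Pool.Agent.Helper46.C2

theorem conj_pow' {G : Type} [Group G] (g y : G) (n : ℕ) : (g * y * g⁻¹) ^ n = g * y ^ n * g⁻¹ := by
  exact conj_pow

theorem hXE (h1 : StGA) (h2 : StGC) (h3 : StXA) (h4 : StXB) (h5 : StXC) : StXE := by
  intro G _ k a w t hR
  obtain ⟨n, hn⟩ : ∃ n : ℤ, n = (k : ℤ) - 1 := ⟨_, rfl⟩
  obtain ⟨E, hE⟩ : ∃ E : G, E = a * a * (w * w) := ⟨_, rfl⟩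
  have e0 : ee a w t 0 = E := by
    simp [ee, Pool.Agent.Helper43.GD.cj, hE]
  have ej : ∀ j : ℤ, ee a w t j = t ^ (-j) * E * t ^ j := by
    intro j; simp [ee, Pool.Agent.Helper43.GD.cj, hE]
  obtain ⟨Z, hZ⟩ : ∃ Z : G, Z = ee a w t n := ⟨_, rfl⟩
  have wt : ∀ m : ℤ, w * t ^ m * w⁻¹ = t ^ (-m) := by
    intro m
    have h0 : w * t * w⁻¹ = t⁻¹ := by
      have := hR.2.1
      calc w * t * w⁻¹ = w * (t⁻¹)⁻¹ * w⁻¹ := by group
        _ = w * (w⁻¹ * t * w)⁻¹ * w⁻¹ := by rw [this]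
        _ = t⁻¹ := by group
    calc w * t ^ m * w⁻¹ = (w * t * w⁻¹) ^ m := by rw [conj_zpow]
      _ = t ^ (-m) := by rw [h0, inv_zpow, zpow_neg]
  have hX2 : w * E * w⁻¹ = E ^ 2 := by
    have := (h1 G k a w t hR 0).1
    rw [neg_zero, e0] at this
    exact this
  obtain ⟨g, hg⟩ : ∃ g : G, g = t ^ (-n) * w := ⟨_, rfl⟩
  have gX : g * E * g⁻¹ = Z ^ 2 := by
    have a1 : g * E * g⁻¹ = t ^ (-n) * (w * E * w⁻¹) * (t ^ (-n))⁻¹ := by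
      rw [hg]; group
    rw [a1, hX2, ← conj_pow, hZ, ej n]
    congr 1
    rw [zpow_neg, inv_inv]
  have gZ : g * Z * g⁻¹ = E ^ 2 := by
    have a1 : g * Z * g⁻¹ = t ^ (-n) * (w * Z * w⁻¹) * (t ^ (-n))⁻¹ := by
      rw [hg]; group
    have a2 : w * Z * w⁻¹ = ee a w t (-n) ^ 2 := by
      rw [hZ]; exact (h1 G k a w t hR n).1
    rw [a1, a2, ← conj_pow, ej (-n)]
    congr 1
    group
  have gg : g * g = w * w := by
    have a1 : g * g = t ^ (-n) * (w * t ^ (-n) * w⁻¹) * (w * w) := by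
      rw [hg]; group
    rw [a1, wt, neg_neg]
    group
  obtain ⟨x, hx⟩ : ∃ x : G, x = (g ^ 3)⁻¹ * Z * g ^ 3 := ⟨_, rfl⟩
  obtain ⟨v, hv⟩ : ∃ v : G, v = (g ^ 3)⁻¹ * E * g ^ 3 := ⟨_, rfl⟩
  have gx : g * x * g⁻¹ = v ^ 2 := by
    have a1 : g * x * g⁻¹ = (g ^ 3)⁻¹ * (g * Z * g⁻¹) * ((g ^ 3)⁻¹)⁻¹ := by
      rw [hx]; group
    have a2 : v = (g ^ 3)⁻¹ * E * ((g ^ 3)⁻¹)⁻¹ := by rw [hv, inv_inv]
    rw [a1, gZ, a2, conj_pow]
  have gv : g * v * g⁻¹ = x ^ 2 := by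
    have a1 : g * v * g⁻¹ = (g ^ 3)⁻¹ * (g * E * g⁻¹) * ((g ^ 3)⁻¹)⁻¹ := by
      rw [hv]; group
    have a2 : x = (g ^ 3)⁻¹ * Z * ((g ^ 3)⁻¹)⁻¹ := by rw [hx, inv_inv]
    rw [a1, gX, a2, conj_pow]
  -- third powers
  have c1E : ∀ m : ℕ, g * E ^ m * g⁻¹ = Z ^ (2 * m) := by
    intro m; rw [← conj_pow, gX, ← pow_mul]
  have c1Z : ∀ m : ℕ, g * Z ^ m * g⁻¹ = E ^ (2 * m) := by
    intro m; rw [← conj_pow, gZ, ← pow_mul]
  have g3E : g ^ 3 * E * (g ^ 3)⁻¹ = Z ^ 8 := by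
    have a1 : g ^ 3 * E * (g ^ 3)⁻¹ = g * (g * (g * E * g⁻¹) * g⁻¹) * g⁻¹ := by
      simp only [pow_succ, pow_zero, one_mul, mul_inv_rev, mul_assoc]
    rw [a1, gX, c1Z, c1E]
  have g3Z : g ^ 3 * Z * (g ^ 3)⁻¹ = E ^ 8 := by
    have a1 : g ^ 3 * Z * (g ^ 3)⁻¹ = g * (g * (g * Z * g⁻¹) * g⁻¹) * g⁻¹ := by
      simp only [pow_succ, pow_zero, one_mul, mul_inv_rev, mul_assoc]
    rw [a1, gZ, c1E, c1Z]
  have x8 : x ^ 8 = E := by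
    have a2 : x = (g ^ 3)⁻¹ * Z * ((g ^ 3)⁻¹)⁻¹ := by rw [hx, inv_inv]
    rw [a2, conj_pow, ← g3E]; group
  have v8 : v ^ 8 = Z := by
    have a2 : v = (g ^ 3)⁻¹ * E * ((g ^ 3)⁻¹)⁻¹ := by rw [hv, inv_inv]
    rw [a2, conj_pow, ← g3Z]; group
  have hC := h2 G k a w t hR
  rw [← hn, ← hZ, e0] at hC
  have A := h3 G x v g gx gv (by rw [x8, v8]; exact hC.1) (by rw [x8, v8, gg]; exact hC.2)
  have B := h4 G x v g gx gv A.1 A.2.1 A.2.2.1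
  have C := h5 G x v g gx gv A.1 A.2.1 A.2.2.1 B.1 B.2
  have x3 := C.1
  have hvx := C.2
  have g4 : g ^ 4 = E := by
    have hd := A.2.2.2
    have v24 : v ^ 24 = 1 := by
      calc v ^ 24 = (v ^ 8) ^ 3 := by rw [← pow_mul]
        _ = 1 := by rw [hvx, x3]
    have xm : ∀ m r : ℕ, x ^ (3 * m + r) = x ^ r := by
      intro m r; rw [pow_add, pow_mul, x3, one_pow, one_mul]
    have x64 : x ^ 64 = x := by
      have := xm 21 1; simpa using this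
    have x82 : x ^ 8 = x ^ 2 := xm 2 2
    rw [hd, v24, hvx, x64, x82, ← x8, x82]
    group
  have com : w * E * w⁻¹ = E := by
    have g4' : g ^ 4 = w ^ 4 := by
      calc g ^ 4 = (g * g) * (g * g) := by simp only [pow_succ, pow_zero, one_mul, mul_assoc]
        _ = w ^ 4 := by rw [gg]; simp only [pow_succ, pow_zero, one_mul, mul_assoc]
    rw [← g4, g4']; group
  rw [hX2] at com
  rw [← hE]
  have : E * E = E * 1 := by rw [mul_one, ← pow_two]; exact com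
  exact mul_left_cancel this

end Pool.Agent.Helper94.C2
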